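import Pool.Agent.N52.NH.Stm

/-!
# Project NH52, leaf HYW (helper897): unitary approximations for words
-/

set_option autoImplicit false

namespace Pool.Agent.N897.NH52.HYW

open Matrix Finset Filter
open scoped ComplexOrder
open Pool.Agent.W661.RC Pool.Agent.W683.RC Pool.Agent.N303.KQ

theorem main : Pool.Agent.N52.NH.S_HYW := by
  intro G _ hG k γ E w0 ε hE hw0 hε
  set μ : ℝ := min ε 1 with hμ
  have hμ0 : 0 < μ := lt_min hε one_pos
  have hμ1 : μ ≤ 1 := min_le_right _ _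
  have hμε : μ ≤ ε := min_le_left _ _
  have hη : (0 : ℝ) < μ ^ 2 / 16 := by positivity
  have hn := appF_neBot hG
  have h1 : ∀ᶠ x in appF G, ∀ w ∈ E,
      hs ((FreeGroup.lift (Ux γ x) w).1 - (x.φ (γ w)).1) ≤ μ ^ 2 / 16 * x.d := by
    rw [eventually_all_finset]
    intro w _
    exact ev_word γ w _ hη
  obtain ⟨x, hx1, hx2, hx3, hx4⟩ :=
    (h1.and ((ev_word γ w0 _ hη).and ((ev_one (P := G)).and (ev_ne (γ w0) hw0)))).exists
  refine ⟨x.d, Ux γ x, x.pos, ?_, ?_⟩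
  · intro w hw
    have h4 := hx1 w hw
    rw [hE w hw, hx3] at h4
    refine h4.trans (mul_le_mul_of_nonneg_right ?_ (Nat.cast_nonneg _))
    nlinarith
  · have hd : (0 : ℝ) ≤ (x.d : ℝ) := Nat.cast_nonneg _
    set u : Mt x.d := (FreeGroup.lift (Ux γ x) w0).1 with hu
    set p : Mt x.d := (x.φ (γ w0)).1 with hp
    have e : p - 1 = (u - 1) - (u - p) := by abel
    have h5 : √(hs (p - 1)) ≤ √(hs (u - 1)) + √(hs (u - p)) := by
      rw [e]
      exact sqrt_hs_sub_le _ _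
    have h6 : √(hs (u - p)) ≤ μ / 4 * √(x.d : ℝ) := by
      have h7 : μ / 4 * √(x.d : ℝ) = √(μ ^ 2 / 16 * x.d) := by
        rw [Real.sqrt_mul (by positivity)]
        congr 1
        rw [show μ ^ 2 / 16 = (μ / 4) ^ 2 by ring, Real.sqrt_sq (by positivity)]
      rw [h7]
      exact Real.sqrt_le_sqrt hx2
    have h8 : √(x.d : ℝ) ≤ √(hs (p - 1)) := Real.sqrt_le_sqrt hx4
    have h9 : (1 - μ / 4) * √(x.d : ℝ) ≤ √(hs (u - 1)) := by linarith
    have h10 : 0 ≤ (1 - μ / 4) * √(x.d : ℝ) :=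
      mul_nonneg (by linarith) (Real.sqrt_nonneg _)
    have h11 := mul_self_le_mul_self h10 h9
    rw [Real.mul_self_sqrt (Pool.Agent.W683.RC.hs_nonneg _)] at h11
    have h12 : (1 - μ / 4) * √(x.d : ℝ) * ((1 - μ / 4) * √(x.d : ℝ)) =
        (1 - μ / 4) ^ 2 * x.d := by
      rw [mul_mul_mul_comm, Real.mul_self_sqrt hd]
      ring
    rw [h12] at h11
    refine le_trans ?_ h11
    refine mul_le_mul_of_nonneg_right ?_ hd
    nlinarith

end Pool.Agent.N897.NH52.HYW
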